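import Pool.Agent.H16.CX.Code

/-!
# (COR) relabelling
-/

set_option autoImplicit false

open Set Topology Filter MeasureTheory

namespace Pool.Agent.H68.CXS

open Pool.Agent.H16.CX Pool.Agent.H72.UV

section

variable {g h : Equiv.Perm ℕ} (hgh : ∀ i, g (2 * i) = 2 * h i)

include hgh

theorem even_iff (n : ℕ) : g n % 2 = 0 ↔ n % 2 = 0 := by
  constructor
  · intro hn
    obtain ⟨j, hj⟩ : ∃ j, g n = 2 * j := ⟨g n / 2, by omega⟩
    have h1 : g (2 * h.symm j) = 2 * j := by rw [hgh, Equiv.apply_symm_apply]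
    have h2 : n = 2 * h.symm j := g.injective (hj.trans h1.symm)
    omega
  · intro hn
    obtain ⟨j, hj⟩ : ∃ j, n = 2 * j := ⟨n / 2, by omega⟩
    rw [hj, hgh]
    omega

theorem even_iff' (n : ℕ) : g.symm n % 2 = 0 ↔ n % 2 = 0 := by
  have := even_iff hgh (g.symm n)
  rw [Equiv.apply_symm_apply] at this
  exact this.symm

end

/-- the identity on the even numbers, `g` on the odd numbers -/
def tau {g h : Equiv.Perm ℕ} (hgh : ∀ i, g (2 * i) = 2 * h i) : Equiv.Perm ℕ where
  toFun n := if n % 2 = 0 then n else g n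
  invFun n := if n % 2 = 0 then n else g.symm n
  left_inv n := by
    by_cases hn : n % 2 = 0
    · simp [hn]
    · have h1 : ¬ g n % 2 = 0 := fun h2 => hn ((even_iff hgh n).1 h2)
      have h2 : (if n % 2 = 0 then n else g n) = g n := if_neg hn
      simp only [h2, if_neg h1, Equiv.symm_apply_apply]
  right_inv n := by
    by_cases hn : n % 2 = 0
    · simp [hn]
    · have h1 : ¬ g.symm n % 2 = 0 := fun h2 => hn ((even_iff' hgh n).1 h2)
      have h2 : (if n % 2 = 0 then n else g.symm n) = g.symm n := if_neg hn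
      simp only [h2, if_neg h1, Equiv.apply_symm_apply]

theorem tau_even {g h : Equiv.Perm ℕ} (hgh : ∀ i, g (2 * i) = 2 * h i) (i : ℕ) :
    tau hgh (2 * i) = 2 * i := by
  change (if (2 * i) % 2 = 0 then _ else _) = _
  rw [if_pos (by omega)]

theorem tau_odd {g h : Equiv.Perm ℕ} (hgh : ∀ i, g (2 * i) = 2 * h i) (i : ℕ) :
    tau hgh (2 * i + 1) = g (2 * i + 1) := by
  change (if (2 * i + 1) % 2 = 0 then _ else _) = _
  rw [if_neg (by omega)]

theorem conj_even {g h : Equiv.Perm ℕ} (hgh : ∀ i, g (2 * i) = 2 * h i) {τ : Equiv.Perm ℕ}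
    (hτ : ∀ i, τ (2 * i) = 2 * i) (i : ℕ) : (g * τ * g⁻¹) (2 * i) = 2 * i := by
  have h1 : g (2 * h.symm i) = 2 * i := by rw [hgh, Equiv.apply_symm_apply]
  have h2 : g⁻¹ (2 * i) = 2 * h.symm i := by
    rw [← h1]
    exact g.symm_apply_apply _
  change g (τ (g⁻¹ (2 * i))) = 2 * i
  rw [h2, hτ, h1]

/-- (COR) -/
theorem pf_cor : T_COR := by
  intro X _ R x0 z hz g h hgh
  refine ⟨?_, ?_⟩
  · intro τ hτ
    rw [← res_mul, show g * τ = g * τ * g⁻¹ * g by group, res_mul,
      hz _ (conj_even hgh hτ)]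
  · intro l
    unfold cz
    by_cases hl : l.Nodup
    · have hl' : (l.map h).Nodup := hl.map h.injective
      rw [dif_pos hl, dif_pos hl', ← R.comp]
      have h1 : R.res (bl (l.map h) hl') z =
          R.res ((bl (l.map h) hl').trans (pe (tau hgh))) z := by
        rw [R.comp, hz _ (tau_even hgh)]
      rw [h1]
      congr 1
      ext i
      change tau hgh (blf (l.map h) i) = g (blf l i)
      unfold blf
      by_cases hi : i < l.length
      · rw [dif_pos hi, dif_pos (by rw [List.length_map]; exact hi), tau_even, List.getElem_map,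
          hgh]
      · rw [dif_neg hi, dif_neg (by rw [List.length_map]; exact hi), tau_odd]
    · rw [dif_neg hl, dif_neg fun h2 => hl (List.Nodup.of_map _ h2)]

end Pool.Agent.H68.CXS
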